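import Pool.Agent.Lib.MP_4b35b9_lc.Main

open Pool.Agent.Lib.MP_4b35b9_lc

/-- There is a hyperarithmetic real that is not random for any continuous measure and such that
no real of its Turing degree has a self-modulus. -/
theorem Pool.Agent.Results.MP_4b35b9_lc.NcrNoSelfModulus.result :
    ∃ X : ℕ → Bool, Delta11 X ∧ NCR X ∧
      ∀ Y : ℕ → Bool, TuringEquivalent (chi Y) (chi X) → ¬ HasSelfModulus Y :=
  main
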